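import Pool.Agent.MP_62ad46_lc.H29.Main

open Pool.Agent.MP_62ad46_lc.H18 Cardinal FirstOrder

namespace Pool.Agent.Results.MP_62ad46_lc.OmegaDefinableAll

/-- In every `ℵ₁`-saturated model of `PA`, the degree of the standard cut is definable without
parameters in the order of the Turing degrees of all subsets of the model. -/
theorem result (M : Type) [CommSemiring M] [LinearOrder M] [IsPA M] (hS : Sat (aleph 1) M) :
    letI := Language.orderStructure (Deg M)
    (∅ : Set (Deg M)).Definable₁ Language.order {deg (omega M)} :=
  Pool.Agent.MP_62ad46_lc.H29.omega_definable hS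

end Pool.Agent.Results.MP_62ad46_lc.OmegaDefinableAll
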